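import Pool.Agent.H30.VX.Targets

/-!
# MP_d32443_co, large `k`: a side of least size is a leaf (LFX)
-/

set_option autoImplicit false

namespace Pool.Agent.H7.VX

open Finset Pool.Agent.H48.CE Pool.Agent.H30.VR Pool.Agent.H30.VX

section

variable {V : Type}

open scoped Classical in
private theorem two_sides (Z A B : Finset V) :
    (Z.filter fun v => v ∉ A ∩ B).card ≤
      (Z.filter fun v => v ∉ A).card + (Z.filter fun v => v ∉ B).card := by
  refine le_trans (card_le_card ?_) (card_union_le _ _)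
  intro v hv
  rw [mem_filter, mem_inter] at hv
  rw [mem_union, mem_filter, mem_filter]
  tauto

open scoped Classical in
private theorem three (Z A B : Finset V) :
    Z.card ≤ (Z.filter fun v => v ∉ A).card + (Z.filter fun v => v ∉ B).card +
      (A.filter fun v => v ∈ B).card := by
  refine le_trans (card_le_card ?_)
    ((card_union_le _ _).trans (Nat.add_le_add_right (card_union_le _ _) _))
  intro v hv
  rw [mem_union, mem_union, mem_filter, mem_filter, mem_filter]
  tauto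

open scoped Classical in
private theorem submod (X Y P Q : Finset V) :
    ((X ∩ P).filter fun v => v ∈ Y ∪ Q).card + ((X ∪ P).filter fun v => v ∈ Y ∩ Q).card ≤
      (X.filter fun v => v ∈ Y).card + (P.filter fun v => v ∈ Q).card := by
  rw [← card_union_add_card_inter, ← card_union_add_card_inter (X.filter fun v => v ∈ Y)]
  refine Nat.add_le_add (card_le_card ?_) (card_le_card ?_)
  · intro v
    simp only [mem_union, mem_inter, mem_filter]
    tauto
  · intro v
    simp only [mem_union, mem_inter, mem_filter]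
    tauto

open scoped Classical in
private theorem Lv_mono {Z A B : Finset V} (h : Lv Z A) (hAB : A ⊆ B) : Lv Z B := by
  refine lt_of_le_of_lt (Nat.mul_le_mul_left 4 (card_le_card ?_)) h
  intro v hv
  rw [mem_filter] at hv ⊢
  exact ⟨hv.1, fun h => hv.2 (hAB h)⟩

open scoped Classical in
private theorem Sp_symm {G : SimpleGraph V} {j : ℕ} {P Q : Finset V} (h : Sp G j P Q) :
    Sp G j Q P := by
  obtain ⟨h1, h2, h3⟩ := h
  refine ⟨fun x => (h1 x).symm, fun x hx hx' y hy hy' hadj => h2 y hy hy' x hx hx' hadj.symm, ?_⟩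
  refine le_trans (card_le_card ?_) h3
  intro v hv
  rw [mem_filter] at hv ⊢
  exact ⟨hv.2, hv.1⟩

open scoped Classical in
private theorem not_both {G : SimpleGraph V} {c : ℕ} (hc : 16 ≤ c) {A B Z : Finset V}
    (hS : Sp G 2 A B) (hZ : Ob G c Z) (h1 : Lv Z A) (h2 : Lv Z B) : False := by
  have h3 := three Z A B
  have h4 : (A.filter fun v => v ∈ B).card ≤ 2 := hS.2.2
  have h5 : 4 * (Z.filter fun v => v ∉ A).card < Z.card := h1
  have h6 : 4 * (Z.filter fun v => v ∉ B).card < Z.card := h2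
  have h7 := hZ.1
  omega

open scoped Classical in
private theorem core [Fintype V] {G : SimpleGraph V} {c : ℕ} (hCon : Con G 1) (hc : 16 ≤ c)
    {X Y P Q Z Z' Z2 : Finset V} (hXY : Sp G 2 X Y) (hPQ : Sp G 2 P Q) (hZ : Ob G c Z)
    (hZ' : Ob G c Z') (hZ2 : Ob G c Z2) (h1 : Lv Z X) (h2 : Lv Z' X) (h3 : Lv Z P)
    (h4 : Lv Z' Q) (h5 : Lv Z2 Y) (h6 : Lv Z2 Q) :
    ∃ X' Y' : Finset V, X' ⊆ X ∧ X'.card < X.card ∧ Sp G 2 X' Y' ∧
      (∃ Z, Ob G c Z ∧ Lv Z X') ∧ (∃ Z, Ob G c Z ∧ Lv Z Y') := by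
  have hsub := submod X Y P Q
  have hXY2 : (X.filter fun v => v ∈ Y).card ≤ 2 := hXY.2.2
  have hPQ2 : (P.filter fun v => v ∈ Q).card ≤ 2 := hPQ.2.2
  -- the other corner
  have hcorner : 2 ≤ ((X ∪ P).filter fun v => v ∈ Y ∩ Q).card := by
    rcases hCon (X ∪ P) (Y ∩ Q) (by
      intro x
      have hx1 := hXY.1 x
      have hx2 := hPQ.1 x
      rw [mem_union, mem_inter]
      tauto) (by
      intro x hx hx' y hy hy' hadj
      rw [mem_union] at hx hy'
      rw [mem_inter] at hx' hy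
      rw [not_or] at hy'
      by_cases hxY : x ∈ Y
      · have hxQ : x ∉ Q := fun h => hx' ⟨hxY, h⟩
        have hxP : x ∈ P := (hPQ.1 x).resolve_right hxQ
        exact hPQ.2.1 x hxP hxQ y hy.2 hy'.2 hadj
      · have hxX : x ∈ X := (hXY.1 x).resolve_right hxY
        exact hXY.2.1 x hxX hxY y hy.1 hy'.1 hadj) with h | h | ⟨S, hS, hS2⟩
    · exfalso
      have h7 : (Z2.filter fun v => v ∈ Y ∩ Q).card ≤
          ((X ∪ P).filter fun v => v ∈ Y ∩ Q).card := by
        refine card_le_card fun v hv => ?_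
        rw [mem_filter] at hv ⊢
        exact ⟨h v, hv.2⟩
      have h8 := two_sides Z2 Y Q
      have h9 := card_filter_add_card_filter_not (s := Z2) (fun v => v ∈ Y ∩ Q)
      have h10 : 4 * (Z2.filter fun v => v ∉ Y).card < Z2.card := h5
      have h11 : 4 * (Z2.filter fun v => v ∉ Q).card < Z2.card := h6
      have h12 := hZ2.1
      omega
    · exfalso
      have h7 : X.card ≤ (X.filter fun v => v ∈ Y).card := by
        refine card_le_card fun v hv => ?_
        rw [mem_filter]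
        exact ⟨hv, (mem_inter.1 (h v)).1⟩
      have h8 : Z.card ≤ (Z.filter fun v => v ∉ X).card + X.card := by
        refine le_trans (card_le_card fun v hv => ?_) (card_union_le _ _)
        rw [mem_union, mem_filter]
        tauto
      have h9 : 4 * (Z.filter fun v => v ∉ X).card < Z.card := h1
      have h10 := hZ.1
      omega
    · have h7 : S.card ≤ ((X ∪ P).filter fun v => v ∈ Y ∩ Q).card := by
        refine card_le_card fun v hv => ?_
        rw [mem_filter]
        exact (hS v).1 hv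
      omega
  have hord : ((X ∩ P).filter fun v => v ∈ Y ∪ Q).card ≤ 2 := by omega
  have hSp : Sp G 2 (X ∩ P) (Y ∪ Q) := by
    refine ⟨?_, ?_, hord⟩
    · intro x
      have hx1 := hXY.1 x
      have hx2 := hPQ.1 x
      rw [mem_union, mem_inter]
      tauto
    · intro x hx hx' y hy hy' hadj
      rw [mem_inter] at hx hy'
      rw [mem_union, not_or] at hx'
      rw [mem_union] at hy
      by_cases hyX : y ∈ X
      · have hyP : y ∉ P := fun h => hy' ⟨hyX, h⟩
        have hyQ : y ∈ Q := (hPQ.1 y).resolve_left hyP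
        exact hPQ.2.1 x hx.2 hx'.2 y hyQ hyP hadj
      · have hyY : y ∈ Y := (hXY.1 y).resolve_left hyX
        exact hXY.2.1 x hx.1 hx'.1 y hyY hyX hadj
  have hLv : Lv Z (X ∩ P) := by
    rcases hZ.2 _ _ hSp with h | h
    · exact h
    · exfalso
      have h7 := three Z (X ∩ P) (Y ∪ Q)
      have h8 := two_sides Z X P
      have h9 : 4 * (Z.filter fun v => v ∉ X).card < Z.card := h1
      have h10 : 4 * (Z.filter fun v => v ∉ P).card < Z.card := h3
      have h11 : 4 * (Z.filter fun v => v ∉ Y ∪ Q).card < Z.card := h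
      have h12 := hZ.1
      omega
  refine ⟨X ∩ P, Y ∪ Q, inter_subset_left, ?_, hSp, ⟨Z, hZ, hLv⟩,
    ⟨Z', hZ', Lv_mono h4 subset_union_right⟩⟩
  rcases lt_or_ge (X ∩ P).card X.card with h | h
  · exact h
  · exfalso
    have h7 : X ∩ P = X := eq_of_subset_of_card_le inter_subset_left h
    have h8 : X ⊆ P := by
      intro v hv
      rw [← h7] at hv
      exact (mem_inter.1 hv).2
    exact not_both hc hPQ hZ' (Lv_mono h2 h8) h4

end

/-- LFX: a leaf. A side of least size is a leaf. -/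
theorem pf_LFX : T_LFX := by
  intro V _ G c Y₀ P Q hCon hc hPQ hP hZP hZQ
  classical
  have hex : ∃ n : ℕ, ∃ X Y : Finset V, X.card = n ∧ Sp G 2 X Y ∧ X ⊆ Y₀ ∧
      (∃ Z, Ob G c Z ∧ Lv Z X) ∧ (∃ Z, Ob G c Z ∧ Lv Z Y) :=
    ⟨P.card, P, Q, rfl, hPQ, hP, hZP, hZQ⟩
  obtain ⟨X, Y, hcard, hXY, hX, hZX, hZY⟩ := Nat.find_spec hex
  have hmin : ∀ X' Y' : Finset V, X' ⊆ X → X'.card < X.card → Sp G 2 X' Y' →
      (∃ Z, Ob G c Z ∧ Lv Z X') → (∃ Z, Ob G c Z ∧ Lv Z Y') → False := by
    intro X' Y' h1 h2 h3 h4 h5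
    rw [hcard] at h2
    exact Nat.find_min hex h2 ⟨X', Y', rfl, h3, h1.trans hX, h4, h5⟩
  refine ⟨X, Y, hXY, hX, hZX, hZY, ?_⟩
  intro Z Z' hZ hZ' hZX' hZ'X P' Q' hPQ' hZP' hZ'Q'
  obtain ⟨Z2, hZ2, hZ2Y⟩ := hZY
  rcases hZ2.2 P' Q' hPQ' with h | h
  · obtain ⟨X', Y', h1, h2, h3, h4, h5⟩ := core hCon hc hXY (Sp_symm hPQ') hZ' hZ hZ2 hZ'X hZX'
      hZ'Q' hZP' hZ2Y h
    exact hmin X' Y' h1 h2 h3 h4 h5
  · obtain ⟨X', Y', h1, h2, h3, h4, h5⟩ := core hCon hc hXY hPQ' hZ hZ' hZ2 hZX' hZ'X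
      hZP' hZ'Q' hZ2Y h
    exact hmin X' Y' h1 h2 h3 h4 h5

end Pool.Agent.H7.VX
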